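import Pool.Agent.helper96.S5.SpecL

set_option autoImplicit false

namespace S5

open PF

/-- the relations depend only on the first constants -/
theorem SEN_dl {L : Type} [Lattice L] [BoundedOrder L] (gr : List At) (M : ℕ) (hgr : ∀ a ∈ gr, a.2.1 ≤ M ∧ a.2.2 ≤ M)
    (c c' : ℕ → L) (h : ∀ i < 2 * M + 2, c i = c' i) : dl gr M c = dl gr M c' := by
  funext r x x' y y'
  cases r with
  | zero =>
    simp only [dl, List.mem_range]
    apply propext
    refine forall_congr' fun a => forall_congr' fun ha => ?_
    rw [h (2 * a) (by omega), h (2 * a + 1) (by omega)]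
  | succ r =>
    simp only [dl]
    apply propext
    constructor
    · rintro ⟨a, ha, h1⟩
      have h2 := hgr a ha
      rw [h (2 * a.2.1) (by omega), h (2 * a.2.1 + 1) (by omega), h (2 * a.2.2) (by omega), h (2 * a.2.2 + 1) (by omega)] at h1
      exact ⟨a, ha, h1⟩
    · rintro ⟨a, ha, h1⟩
      have h2 := hgr a ha
      rw [← h (2 * a.2.1) (by omega), ← h (2 * a.2.1 + 1) (by omega), ← h (2 * a.2.2) (by omega),
        ← h (2 * a.2.2 + 1) (by omega)] at h1
      exact ⟨a, ha, h1⟩

/-- change of the matrix and of the values -/
theorem SEN_st {L : Type} (q : List Bool) : ∀ (m m' : (ℕ → L) → Prop) (e e' : ℕ → L),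
    (∀ f f' : ℕ → L, (∀ i < q.length, f i = f' i) → (∀ i, f (q.length + i) = e i) →
      (∀ i, f' (q.length + i) = e' i) → (m f ↔ m' f')) → (St L q m e ↔ St L q m' e') := by
  induction q with
  | nil =>
    intro m m' e e' h
    exact h e e' (by simp) (by simp) (by simp)
  | cons b q ih =>
    intro m m' e e' h
    have key : ∀ x : L, St L q m (cns x e) ↔ St L q m' (cns x e') := by
      intro x
      apply ih
      intro f f' h1 h2 h3
      apply h
      · intro i hi
        simp only [List.length_cons] at hi
        rcases Nat.lt_or_ge i q.length with h4 | h4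
        · exact h1 i h4
        · have h5 : i = q.length + 0 := by omega
          rw [h5, h2 0, h3 0]
          rfl
      · intro i
        have h5 : (b :: q).length + i = q.length + (i + 1) := by
          simp only [List.length_cons]
          omega
        rw [h5, h2 (i + 1)]
        rfl
      · intro i
        have h5 : (b :: q).length + i = q.length + (i + 1) := by
          simp only [List.length_cons]
          omega
        rw [h5, h3 (i + 1)]
        rfl
    cases b with
    | true => exact forall_congr' key
    | false => exact exists_congr key

/-- the two kinds of truth -/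
theorem SEN_sat {L : Type} [Lattice L] [BoundedOrder L] (φ : Fm) (q : List Bool) : ∀ l : List L,
    Sat L q φ l ↔ St L q (fun f => φ.Holds f) (fun i => l.getD i ⊥) := by
  induction q with
  | nil =>
    intro l
    exact Iff.rfl
  | cons b q ih =>
    intro l
    have key : ∀ x : L, Sat L q φ (x :: l) ↔ St L q (fun f => φ.Holds f) (cns x (fun i => l.getD i ⊥)) := by
      intro x
      rw [ih (x :: l)]
      have h : (fun i => (x :: l).getD i ⊥) = cns x (fun i => l.getD i ⊥) := by
        funext i
        cases i with
        | zero => rfl
        | succ i => rfl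
      rw [h]
    cases b with
    | true => exact forall_congr' key
    | false => exact exists_congr key

/-- existential quantifiers in front -/
theorem SEN_rep {L : Type} [Lattice L] [BoundedOrder L] (φ : Fm) (q : List Bool) (k : ℕ) : ∀ l : List L,
    Sat L (List.replicate k false ++ q) φ l ↔ ∃ l' : List L, l'.length = k ∧ Sat L q φ (l' ++ l) := by
  induction k with
  | zero =>
    intro l
    constructor
    · intro h
      exact ⟨[], rfl, h⟩
    · rintro ⟨l', h1, h2⟩
      have h3 : l' = [] := List.length_eq_zero_iff.mp h1
      subst h3
      exact h2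
  | succ k ih =>
    intro l
    have h0 : Sat L (List.replicate (k + 1) false ++ q) φ l ↔ ∃ x : L, Sat L (List.replicate k false ++ q) φ (x :: l) := by
      rw [List.replicate_succ, List.cons_append]
      exact Iff.rfl
    rw [h0]
    constructor
    · rintro ⟨x, hx⟩
      obtain ⟨l', h1, h2⟩ := (ih (x :: l)).mp hx
      refine ⟨l' ++ [x], by simp [h1], ?_⟩
      rw [List.append_assoc]
      exact h2
    · rintro ⟨l', h1, h2⟩
      have hne : l' ≠ [] := by
        intro h3
        rw [h3] at h1
        simp at h1
      refine ⟨l'.getLast hne, (ih _).mpr ⟨l'.dropLast, by simp [h1], ?_⟩⟩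
      have h4 : l'.dropLast ++ l'.getLast hne :: l = l' ++ l := by
        rw [List.append_cons, List.dropLast_append_getLast hne]
      rw [h4]
      exact h2

theorem SEN_row (hSBX : SBX_stmt) (hCLX : CLX_stmt) (hSTC : STC_stmt) : SEN_stmt := by
  intro L _ _ q μ gr M hq hgr hM hb
  refine ⟨fun n => List.replicate (2 * M n + 2) false ++ q, fun n => xsb q.length (gr n) (M n) μ, ?_,
    hSTC q.length μ gr M hgr hM, ?_⟩
  · have h1 : Primrec fun k : ℕ => List.replicate (2 * k + 2) false ++ q := by
      have h2 : (fun k : ℕ => List.replicate (2 * k + 2) false ++ q) =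
          fun k : ℕ => (List.range (2 * k + 2)).map (fun _ => false) ++ q := by
        funext k
        rw [List.map_const', List.length_range]
      rw [h2]
      refine Primrec.list_append.comp (Primrec.list_map (Primrec.list_range.comp ?_) (Primrec.const false).to₂)
        (Primrec.const q)
      exact Primrec.nat_add.comp (Primrec.nat_mul.comp (Primrec.const 2) Primrec.id) (Primrec.const 2)
    exact h1.to_comp.comp hM
  · intro n
    refine ⟨?_, ?_, ?_⟩
    · obtain ⟨k, q', h1, h2⟩ := hq
      refine ⟨2 * M n + 2 + k, q', ?_, h2⟩
      show List.replicate (2 * M n + 2) false ++ q = _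
      rw [h1, ← List.append_assoc, List.replicate_append_replicate]
      rfl
    · have h1 := hCLX q.length (gr n) (M n) μ (hb n)
      have h2 : (List.replicate (2 * M n + 2) false ++ q).length = q.length + (2 * M n + 2) := by
        rw [List.length_append, List.length_replicate]
        omega
      show clo (List.replicate (2 * M n + 2) false ++ q).length _
      rw [h2]
      exact h1
    · show Sat L (List.replicate (2 * M n + 2) false ++ q) (xsb q.length (gr n) (M n) μ) [] ↔ _
      have key : ∀ (l' : List L) (c : ℕ → L), (∀ i < 2 * M n + 2, l'.getD i ⊥ = c i) →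
          (Sat L q (xsb q.length (gr n) (M n) μ) l' ↔
            St L q (fun f => XM.ev (dl (gr n) (M n) c) f μ) (fun _ => ⊥)) := by
        intro l' c hl
        rw [SEN_sat]
        apply SEN_st
        intro f f' h1 h2 h3
        show (xsb q.length (gr n) (M n) μ).Holds f ↔ XM.ev (dl (gr n) (M n) c) f' μ
        rw [hSBX L q.length (gr n) (M n) μ f]
        have h4 : (fun i => if i < q.length then f i else ⊥) = f' := by
          funext i
          split_ifs with h5
          · exact h1 i h5
          · have h6 := h3 (i - q.length)
            rw [show q.length + (i - q.length) = i by omega] at h6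
            exact h6.symm
        have h5 : dl (gr n) (M n) (fun i => f (q.length + i)) = dl (gr n) (M n) c := by
          apply SEN_dl _ _ (hb n)
          intro i hi
          show f (q.length + i) = c i
          rw [h2 i]
          exact hl i hi
        rw [h4, h5]
      rw [SEN_rep]
      constructor
      · rintro ⟨l', h1, h2⟩
        rw [List.append_nil] at h2
        exact ⟨fun i => l'.getD i ⊥, (key l' _ (fun i _ => rfl)).mp h2⟩
      · rintro ⟨c, hc⟩
        refine ⟨(List.range (2 * M n + 2)).map c, by simp, ?_⟩
        rw [List.append_nil]
        refine (key _ c ?_).mpr hc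
        intro i hi
        rw [List.getD_eq_getElem _ _ (by simpa using hi)]
        simp

end S5
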