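import Pool.Agent.helper96.S5.SpecV

set_option autoImplicit false

namespace S5

open PF

theorem SRE_pair {α : Type} [Primcodable α] {f g : α → ℕ} (hf : Computable f) (hg : Computable g) :
    Computable fun x => Nat.pair (f x) (g x) := Primrec₂.natPair.to_comp.comp hf hg

theorem SRE_suc {α : Type} [Primcodable α] {f : α → ℕ} (hf : Computable f) :
    Computable fun x => f x + 1 := Computable.succ.comp hf

section

variable (X : Cx) (hX : X.Ok)
  (hasg : Computable fun x : ℕ × ℕ => X.B.asg x.1 x.2)
  (hdmp : ComputablePred fun x : (ℕ × ℕ) × ℕ => X.B.dmp x.1.1 x.1.2 x.2)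
  (hth : Computable fun x : ℕ × ℕ => X.B.th x.1 x.2)

include hX in
theorem SRE_N {α : Type} [Primcodable α] {j : α → ℕ} (hj : Computable j) : REPred fun y => j y ∈ X.N := by
  have h : REPred fun y : α => ∃ s : ℕ, X.Nt (j y) s := by
    apply re_ex
    exact (cp_comp (f := fun x : α × ℕ => (j x.1, x.2)) (p := fun x : ℕ × ℕ => X.Nt x.1 x.2)
      ((hj.comp Computable.fst).pair Computable.snd) hX.nc).to_re
  exact h

include hX in
theorem SRE_f {α : Type} [Primcodable α] {t : α → ℕ} (ht : Computable t) : Computable fun y => X.f (t y) :=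
  hX.fc.comp ht

include hX in
theorem SRE_E {α : Type} [Primcodable α] {j : α → ℕ} (hj : Computable j) : REPred fun y => j y ∈ X.E := by
  have h : REPred fun y : α => ∃ t : ℕ, X.f t = j y := by
    apply re_ex
    exact (cp_eq (SRE_f X hX Computable.snd) (hj.comp Computable.fst)).to_re
  exact h

include hasg in
theorem SRE_inp {α : Type} [Primcodable α] {k j t : α → ℕ} (hk : Computable k) (hj : Computable j)
    (ht : Computable t) : REPred fun y => X.B.inp (k y) (j y) (t y) := by
  have h : REPred fun y : α => ∃ s : ℕ, X.B.asg (k y) (Nat.pair s (t y)) = j y + 1 := by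
    apply re_ex
    exact (cp_eq (hasg.comp ((hk.comp Computable.fst).pair (SRE_pair Computable.snd (ht.comp Computable.fst))))
      (SRE_suc (hj.comp Computable.fst))).to_re
  exact h

include hasg hdmp in
theorem SRE_ind {α : Type} [Primcodable α] {k j t : α → ℕ} (hk : Computable k) (hj : Computable j)
    (ht : Computable t) : REPred fun y => X.B.ind (k y) (j y) (t y) := by
  have h : REPred fun y : α => ∃ s : ℕ, X.B.asg (k y) (Nat.pair s (t y)) = j y + 1 ∧
      ∃ u : ℕ, Nat.pair s (t y) ≤ u ∧ X.B.dmp (k y) u (j y) := by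
    apply re_ex
    refine re_and ?_ ?_
    · exact (cp_eq (hasg.comp ((hk.comp Computable.fst).pair (SRE_pair Computable.snd (ht.comp Computable.fst))))
        (SRE_suc (hj.comp Computable.fst))).to_re
    · apply re_ex
      refine re_and ?_ ?_
      · exact (cp_le (SRE_pair (Computable.snd.comp Computable.fst)
          (ht.comp (Computable.fst.comp Computable.fst))) Computable.snd).to_re
      · exact (cp_comp (f := fun x : (α × ℕ) × ℕ => ((k x.1.1, x.2), j x.1.1))
          (p := fun x : (ℕ × ℕ) × ℕ => X.B.dmp x.1.1 x.1.2 x.2)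
          (((hk.comp (Computable.fst.comp Computable.fst)).pair Computable.snd).pair
            (hj.comp (Computable.fst.comp Computable.fst))) hdmp).to_re
  exact h

include hX hasg in
theorem SRE_bk {α : Type} [Primcodable α] {x k j : α → ℕ} (hx : Computable x) (hk : Computable k)
    (hj : Computable j) : REPred fun y => x y ∈ X.bk (k y) (j y) := by
  have h : REPred fun y : α => ∃ t : ℕ, x y = Nat.pair (k y) (X.f t) ∧ X.B.inp (k y) (j y) t := by
    apply re_ex
    refine re_and ?_ ?_
    · exact (cp_eq (hx.comp Computable.fst) (SRE_pair (hk.comp Computable.fst)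
        (SRE_f X hX Computable.snd))).to_re
    · exact SRE_inp X hasg (hk.comp Computable.fst) (hj.comp Computable.fst) Computable.snd
  exact h

end

theorem SRE_row (hCPX : CPX_stmt) (hCAS : CAS_stmt) (hCTH : CTH_stmt) : SRE_stmt := by
  intro X hX
  obtain ⟨hcp, hlam⟩ := hCPX X hX
  obtain ⟨hasg, hdmp⟩ := hCAS X.B hcp hlam
  have hth := hCTH X.B hcp hlam
  have hu1 : Computable fun x : ℕ => x.unpair.1 := (Primrec.fst.comp Primrec.unpair).to_comp
  have hu2 : Computable fun x : ℕ => x.unpair.2 := (Primrec.snd.comp Primrec.unpair).to_comp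
  have hA : REPred fun x => x ∈ X.sA := SRE_E X hX hu2
  have hL : REPred fun x => x ∈ X.sL := SRE_N X hX hu1
  have c1 : Computable fun y : (ℕ × ℕ) × ℕ => y.1.1 := Computable.fst.comp Computable.fst
  have c2 : Computable fun y : (ℕ × ℕ) × ℕ => y.1.2 := Computable.snd.comp Computable.fst
  have c3 : Computable fun y : (ℕ × ℕ) × ℕ => y.2 := Computable.snd
  refine ⟨hA, hL, re_or hA hL, ?_, ?_, ?_, ?_, ?_, ?_⟩
  · have h : REPred fun x : ℕ => ∃ k : ℕ, ∃ j : ℕ, ∃ t : ℕ, x = Nat.pair k (X.f t) ∧
        ((X.B.inp k j t ∧ j ∈ X.N) ∨ X.B.ind k j t) := by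
      apply re_ex
      apply re_ex
      apply re_ex
      have d1 : Computable fun y : ((ℕ × ℕ) × ℕ) × ℕ => y.1.1.1 :=
        Computable.fst.comp (Computable.fst.comp Computable.fst)
      have d2 : Computable fun y : ((ℕ × ℕ) × ℕ) × ℕ => y.1.1.2 :=
        Computable.snd.comp (Computable.fst.comp Computable.fst)
      have d3 : Computable fun y : ((ℕ × ℕ) × ℕ) × ℕ => y.1.2 := Computable.snd.comp Computable.fst
      have d4 : Computable fun y : ((ℕ × ℕ) × ℕ) × ℕ => y.2 := Computable.snd
      exact re_and (cp_eq d1 (SRE_pair d2 (SRE_f X hX d4))).to_re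
        (re_or (re_and (SRE_inp X hasg d2 d3 d4) (SRE_N X hX d3)) (SRE_ind X hasg hdmp d2 d3 d4))
    exact h
  · have h : REPred fun x : ℕ => ∃ k : ℕ, ∃ j : ℕ, x ∈ X.bk k j ∧ j ∈ X.N := by
      apply re_ex
      apply re_ex
      exact re_and (SRE_bk X hX hasg c1 c2 c3) (SRE_N X hX c3)
    exact h
  · intro c
    have h : REPred fun x : ℕ => ∃ k : ℕ, ∃ j : ℕ, x ∈ X.bk k j ∧ (pcc j).2.2 = c := by
      apply re_ex
      apply re_ex
      exact re_and (SRE_bk X hX hasg c1 c2 c3)
        (cp_eq (Computable.snd.comp (Computable.snd.comp (pcc_computable.comp c3))) (Computable.const c)).to_re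
    exact h
  · intro l
    have h : REPred fun x : ℕ => ∃ k : ℕ, ∃ t : ℕ, x = Nat.pair k (X.f t) ∧ (X.B.th k t).2 = l := by
      apply re_ex
      apply re_ex
      exact re_and (cp_eq c1 (SRE_pair c2 (SRE_f X hX c3))).to_re
        (cp_eq (Computable.snd.comp (hth.comp (c2.pair c3))) (Computable.const l)).to_re
    exact h
  · intro l
    have h : REPred fun x : ℕ => ∃ k : ℕ, ∃ t : ℕ, x = Nat.pair k (X.f t) ∧ (X.B.th k t).2 ≠ l := by
      apply re_ex
      apply re_ex
      exact re_and (cp_eq c1 (SRE_pair c2 (SRE_f X hX c3))).to_re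
        (cp_not (cp_eq (Computable.snd.comp (hth.comp (c2.pair c3))) (Computable.const l))).to_re
    exact h
  · exact SRE_bk X hX hasg c3 c1 c2

end S5
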